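import Pool.Agent.Helper83.FFProof

open MeasureTheory ProbabilityTheory Filter Topology
open scoped BigOperators ENNReal NNReal

open Pool.Agent.Helper83.FirstFit

namespace Pool.Agent.Results.MP_e8f67b_lc.FirstFitOptimal

/-- **First Fit is asymptotically optimal for random vector packing in every dimension.**
For every `d ≥ 1`, if `V 0, V 1, …` are independent random vectors, each uniformly distributed on
the cube `[0,1]^d`, and `L_n` is the list `V 0, …, V (n-1)`, then the expectation of
`FF L_n / OPT L_n` tends to `1` as `n → ∞`. -/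
theorem result {d : ℕ} (hd : 1 ≤ d) {Ω : Type*} [MeasurableSpace Ω] (P : Measure Ω)
    [IsProbabilityMeasure P] (V : ℕ → Ω → Fin d → ℝ) (hmeas : ∀ i, Measurable (V i))
    (hindep : iIndepFun V P) (hunif : ∀ i, P.map (V i) = volume.restrict (Set.Icc 0 1)) :
    Tendsto (fun n : ℕ => ∫ ω, (FF (List.ofFn fun i : Fin n => V i ω) : ℝ) /
      (OPT (List.ofFn fun i : Fin n => V i ω) : ℝ) ∂P) atTop (𝓝 1) :=
  main hd P V hmeas hindep hunif

end Pool.Agent.Results.MP_e8f67b_lc.FirstFitOptimal
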